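import Pool.Agent.Lib.MP_0d9445_pr.Net.Solve

open Finset
open scoped Classical

noncomputable section

namespace Pool.Agent.Lib.MP_0d9445_pr.Net

variable {V : Type*} (G : Net V)

theorem hext_sol (F : Finset V) (φ : V → ℝ) :
    G.Sol (G.esc F) 0 0 (fun x => if x ∈ F then 0 else φ x) (G.hext F φ) :=
  G.solve_sol (G.esc_esc F) (fun _ _ => le_rfl) _ _

theorem hext_out (F : Finset V) (φ : V → ℝ) {x : V} (hx : x ∉ F) : G.hext F φ x = φ x := by
  rw [(G.hext_sol F φ).1 x fun h => hx (G.esc_subset F h)]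
  exact if_neg hx

theorem hext_closed (F : Finset V) (φ : V → ℝ) {x : V} (hx : x ∈ F) (hx' : x ∉ G.esc F) :
    G.hext F φ x = 0 := by
  rw [(G.hext_sol F φ).1 x hx']
  exact if_pos hx

theorem hext_lap (F : Finset V) (φ : V → ℝ) {x : V} (hx : x ∈ F) : G.lap (G.hext F φ) x = 0 := by
  by_cases h : x ∈ G.esc F
  · simpa using (G.hext_sol F φ).2 x h
  · refine sum_eq_zero fun y hy => ?_
    have hyF : y ∈ F := by
      by_contra hyF
      exact h (mem_filter.2 ⟨hx, y, hyF, Relation.ReflTransGen.single hy⟩)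
    have hye : y ∉ G.esc F := fun hye => by
      obtain ⟨z, hz, hr⟩ := (mem_filter.1 hye).2
      exact h (mem_filter.2 ⟨hx, z, hz, Relation.ReflTransGen.head hy hr⟩)
    rw [G.hext_closed F φ hx h, G.hext_closed F φ hyF hye, sub_zero]

theorem hext_add (F : Finset V) (φ ψ : V → ℝ) : G.hext F (φ + ψ) = G.hext F φ + G.hext F ψ := by
  have h := (G.hext_sol F φ).add (G.hext_sol F ψ)
  refine (G.hext_sol F (φ + ψ)).unique (G.esc_esc F) (fun _ _ => le_rfl) ⟨fun x hx => ?_, ?_⟩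
  · rw [h.1 x hx]
    by_cases hxF : x ∈ F <;> simp [hxF]
  · simpa using h.2

theorem hext_smul (F : Finset V) (c : ℝ) (φ : V → ℝ) : G.hext F (c • φ) = c • G.hext F φ := by
  have h := (G.hext_sol F φ).smul c
  refine (G.hext_sol F (c • φ)).unique (G.esc_esc F) (fun _ _ => le_rfl) ⟨fun x hx => ?_, ?_⟩
  · rw [h.1 x hx]
    by_cases hxF : x ∈ F <;> simp [hxF]
  · simpa using h.2

/-- the harmonic extension as a linear map -/
def hextL (F : Finset V) : (V → ℝ) →ₗ[ℝ] V → ℝ where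
  toFun := G.hext F
  map_add' := G.hext_add F
  map_smul' := G.hext_smul F

theorem hext_eq_solve {F : Finset V} (hF : G.Esc F) (φ : V → ℝ) :
    G.hext F φ = G.solve F 0 0 φ :=
  Sol.eq_solve hF (fun _ _ => le_rfl)
    ⟨fun _ hx => G.hext_out F φ hx, fun x hx => by simp [G.hext_lap F φ hx]⟩

theorem hext_congr (F : Finset V) {φ ψ : V → ℝ} (h : ∀ x ∈ F, ∀ y ∈ G.N x, y ∉ F → φ y = ψ y)
    {x : V} (hx : x ∈ F) : G.hext F φ x = G.hext F ψ x := by
  by_cases he : x ∈ G.esc F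
  · refine G.solve_congr (G.esc_esc F) (fun _ _ => le_rfl) (fun _ _ => rfl) (fun _ _ => rfl)
      (fun z hz y hy _ => ?_) he
    by_cases hyF : y ∈ F
    · simp [hyF]
    · simp [hyF, h z (G.esc_subset F hz) y hy hyF]
  · rw [G.hext_closed F φ hx he, G.hext_closed F ψ hx he]

theorem abs_hext_le (F : Finset V) {φ : V → ℝ} {M : ℝ} (hM : 0 ≤ M)
    (h : ∀ x ∈ F, ∀ y ∈ G.N x, y ∉ F → |φ y| ≤ M) {x : V} (hx : x ∈ F) : |G.hext F φ x| ≤ M := by
  by_cases he : x ∈ G.esc F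
  · refine G.abs_solve_le (G.esc_esc F) (fun _ _ => le_rfl) hM (fun z hz y hy _ => ?_) he
    by_cases hyF : y ∈ F
    · simpa [hyF] using hM
    · simpa [hyF] using h z (G.esc_subset F hz) y hy hyF
  · rw [G.hext_closed F φ hx he]
    simpa using hM

theorem hx_out (S : Finset V) (φ : V → ℝ) {x : V} (h : x ∉ G.inner S) : G.hx S φ x = φ x :=
  G.hext_out _ φ h

theorem hx_lap (S : Finset V) (φ : V → ℝ) {x : V} (h : x ∈ G.inner S) :
    G.lap (G.hx S φ) x = 0 := G.hext_lap _ φ h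

theorem hx_add (S : Finset V) (φ ψ : V → ℝ) : G.hx S (φ + ψ) = G.hx S φ + G.hx S ψ :=
  G.hext_add _ φ ψ

theorem hx_smul (S : Finset V) (c : ℝ) (φ : V → ℝ) : G.hx S (c • φ) = c • G.hx S φ :=
  G.hext_smul _ c φ

theorem hx_congr (S : Finset V) {φ ψ : V → ℝ}
    (h : ∀ x ∈ G.clo S, x ∉ G.inner S → φ x = ψ x) : ∀ x ∈ G.clo S, G.hx S φ x = G.hx S ψ x := by
  intro x hx
  by_cases hi : x ∈ G.inner S
  · exact G.hext_congr _ (fun z hz y hy hy' =>
      h y (G.mem_clo.2 (Or.inr ⟨z, G.inner_subset S hz, hy⟩)) hy') hi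
  · rw [G.hx_out S φ hi, G.hx_out S ψ hi, h x hx hi]

/-- harmonic functions are orthogonal to functions which vanish off the inner vertices -/
theorem en_harm {S : Finset V} {u v : V → ℝ} (hu : ∀ x ∈ G.inner S, G.lap u x = 0)
    (hv : ∀ x ∈ G.clo S, x ∉ G.inner S → v x = 0) : G.en S u v = 0 := by
  have h1 : G.en S u v = G.en S u fun x => if x ∈ G.inner S then v x else 0 :=
    G.en_congr (fun _ _ => rfl) fun x hx => by
      split_ifs with h
      · rfl
      · exact hv x hx h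
  rw [h1, G.en_eq_sum subset_rfl u fun x hx => if_neg hx]
  exact sum_eq_zero fun x hx => by rw [hu x hx, zero_mul]

theorem en_hx_zero (S : Finset V) (φ : V → ℝ) {v : V → ℝ}
    (hv : ∀ x ∈ G.clo S, x ∉ G.inner S → v x = 0) : G.en S (G.hx S φ) v = 0 :=
  G.en_harm (fun _ hx => G.hx_lap S φ hx) hv

/-- orthogonality -/
theorem en_eq_nu_add (S : Finset V) {φ w : V → ℝ}
    (hw : ∀ x ∈ G.clo S, x ∉ G.inner S → w x = φ x) :
    G.en S w w = G.nu S φ + G.en S (w - G.hx S φ) (w - G.hx S φ) := by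
  have h := G.en_add_self S (G.hx S φ) (w - G.hx S φ)
  rw [add_sub_cancel, G.en_hx_zero S φ (v := w - G.hx S φ) fun x hx hi => by
    rw [Pi.sub_apply, G.hx_out S φ hi, hw x hx hi, sub_self]] at h
  rw [h, nu]; ring

theorem en_hx_eq_nu (S : Finset V) {φ w : V → ℝ}
    (hw : ∀ x ∈ G.clo S, x ∉ G.inner S → w x = φ x) : G.en S (G.hx S φ) w = G.nu S φ := by
  have h := G.en_hx_zero S φ (v := w - G.hx S φ) fun x hx hi => by
    rw [Pi.sub_apply, G.hx_out S φ hi, hw x hx hi, sub_self]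
  rw [en_sub_right] at h
  rw [nu]; linarith

theorem nu_nonneg (S : Finset V) (φ : V → ℝ) : 0 ≤ G.nu S φ := G.en_nonneg S _

/-- Dirichlet principle -/
theorem nu_le (S : Finset V) {φ w : V → ℝ} (hw : ∀ x ∈ G.clo S, x ∉ G.inner S → w x = φ x) :
    G.nu S φ ≤ G.en S w w := by
  rw [G.en_eq_nu_add S hw]
  exact le_add_of_nonneg_right (G.en_nonneg S _)

theorem nu_le_en (S : Finset V) (φ : V → ℝ) : G.nu S φ ≤ G.en S φ φ := G.nu_le S fun _ _ _ => rfl

theorem nu_eq_of_harm (S : Finset V) {φ w : V → ℝ}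
    (hw : ∀ x ∈ G.clo S, x ∉ G.inner S → w x = φ x) (hl : ∀ x ∈ G.inner S, G.lap w x = 0) :
    G.nu S φ = G.en S w w := by
  have h := G.en_harm (v := w - G.hx S φ) hl fun x hx hi => by
    rw [Pi.sub_apply, G.hx_out S φ hi, hw x hx hi, sub_self]
  rw [en_sub_right, G.en_comm S w (G.hx S φ), G.en_hx_eq_nu S hw] at h
  linarith

theorem nu_congr (S : Finset V) {φ ψ : V → ℝ} (h : ∀ x ∈ G.clo S, x ∉ G.inner S → φ x = ψ x) :
    G.nu S φ = G.nu S ψ := G.en_congr (G.hx_congr S h) (G.hx_congr S h)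

theorem nu_smul (S : Finset V) (c : ℝ) (φ : V → ℝ) : G.nu S (c • φ) = c ^ 2 * G.nu S φ := by
  rw [nu, hx_smul, en_smul_left, en_smul_right, nu]; ring

theorem nu_add (S : Finset V) (φ ψ : V → ℝ) :
    G.nu S (φ + ψ) = G.nu S φ + 2 * G.en S (G.hx S φ) (G.hx S ψ) + G.nu S ψ := by
  rw [nu, hx_add, en_add_self, nu, nu]

theorem nu_add_const (S : Finset V) (φ : V → ℝ) (c : ℝ) :
    G.nu S (φ + fun _ => c) = G.nu S φ := by
  rw [G.nu_eq_of_harm S (w := G.hx S φ + fun _ => c)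
    (fun x _ hi => by rw [Pi.add_apply, Pi.add_apply, G.hx_out S φ hi])
    (fun x hx => by rw [lap_add, lap_const, G.hx_lap S φ hx, add_zero]),
    en_add_self, en_const_right, en_const_right, nu]
  ring

theorem en_hx_hx (S : Finset V) (φ ψ : V → ℝ) :
    G.en S (G.hx S φ) (G.hx S ψ) = G.en S (G.hx S φ) ψ := by
  have h := G.en_hx_zero S φ (v := G.hx S ψ - ψ) fun x _ hi => by
    rw [Pi.sub_apply, G.hx_out S ψ hi, sub_self]
  rw [en_sub_right] at h
  linarith

/-- the inner vertices of a set are not seen by the edges starting in a disjoint set -/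
theorem not_mem_inner {S T : Finset V} (h : Disjoint S T) {x : V} (hx : x ∈ G.clo S) :
    x ∉ G.inner T := fun hi => by
  rcases G.mem_clo.1 hx with h1 | ⟨z, hz, h1⟩
  · exact disjoint_left.1 h h1 (G.inner_subset T hi)
  · exact disjoint_left.1 h hz ((G.mem_inner.1 hi).2 (G.symm _ _ h1))

/-- the minimisers of the pieces glued together -/
def patch {ι : Type*} (s : Finset ι) (S : ι → Finset V) (φ : V → ℝ) : V → ℝ :=
  fun x => φ x + ∑ i ∈ s, (G.hx (S i) φ x - φ x)

theorem patch_eq {ι : Type*} {s : Finset ι} {S : ι → Finset V}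
    (h : (s : Set ι).PairwiseDisjoint S) (φ : V → ℝ) {i : ι} (hi : i ∈ s) {x : V}
    (hx : x ∈ G.clo (S i)) : G.patch s S φ x = G.hx (S i) φ x := by
  rw [patch, sum_eq_single_of_mem i hi fun j hj hji => ?_]
  · ring
  · rw [G.hx_out _ φ (G.not_mem_inner (h hi hj hji.symm) hx), sub_self]

theorem patch_out {ι : Type*} {s : Finset ι} {S : ι → Finset V} (φ : V → ℝ) {x : V}
    (hx : ∀ i ∈ s, x ∉ G.inner (S i)) : G.patch s S φ x = φ x := by
  rw [patch, sum_eq_zero fun i hi => by rw [G.hx_out _ φ (hx i hi), sub_self], add_zero]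

theorem en_patch {ι : Type*} {s : Finset ι} {S : ι → Finset V}
    (h : (s : Set ι).PairwiseDisjoint S) (φ ψ : V → ℝ) :
    G.en (s.biUnion S) (G.patch s S φ) (G.patch s S ψ) =
      ∑ i ∈ s, G.en (S i) (G.hx (S i) φ) (G.hx (S i) ψ) := by
  rw [G.en_biUnion s S h]
  exact sum_congr rfl fun i hi =>
    G.en_congr (fun _ hx => G.patch_eq h φ hi hx) fun _ hx => G.patch_eq h ψ hi hx

/-- the defect of subadditivity is the energy of the difference -/
theorem sum_nu_eq {ι : Type*} {s : Finset ι} {S : ι → Finset V}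
    (h : (s : Set ι).PairwiseDisjoint S) (φ : V → ℝ) :
    ∑ i ∈ s, G.nu (S i) φ = G.nu (s.biUnion S) φ +
      G.en (s.biUnion S) (G.patch s S φ - G.hx (s.biUnion S) φ)
        (G.patch s S φ - G.hx (s.biUnion S) φ) := by
  exact (G.en_patch h φ φ).symm.trans (G.en_eq_nu_add (s.biUnion S) (w := G.patch s S φ)
    fun x _ hx => G.patch_out φ fun i hi hx' =>
      hx (G.inner_mono (subset_biUnion_of_mem S hi) hx'))

/-- subadditivity -/
theorem nu_biUnion_le {ι : Type*} {s : Finset ι} {S : ι → Finset V}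
    (h : (s : Set ι).PairwiseDisjoint S) (φ : V → ℝ) :
    G.nu (s.biUnion S) φ ≤ ∑ i ∈ s, G.nu (S i) φ := by
  exact (le_add_of_nonneg_right (G.en_nonneg _ _)).trans (G.sum_nu_eq h φ).ge

theorem hx_eq_sum (S : Finset V) (φ : V → ℝ) {x : V} (hx : x ∈ G.clo S) :
    G.hx S φ x = ∑ y ∈ G.clo S, φ y * G.hx S (Pi.single y 1) x := by
  have h1 : G.hx S φ x = G.hextL (G.inner S) (∑ y ∈ G.clo S, φ y • Pi.single y 1) x := by
    refine G.hx_congr S (fun z hz _ => ?_) x hx
    rw [Finset.sum_apply, sum_eq_single_of_mem z hz fun y _ hy => by simp [hy.symm]]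
    simp
  rw [h1, map_sum, Finset.sum_apply]
  refine sum_congr rfl fun y _ => ?_
  rw [map_smul]
  rfl

theorem measurable_hx {Ω : Type*} [MeasurableSpace Ω] (S : Finset V) {φ : Ω → V → ℝ}
    (hφ : ∀ y ∈ G.clo S, Measurable fun ω => φ ω y) {x : V} (hx : x ∈ G.clo S) :
    Measurable fun ω => G.hx S (φ ω) x := by
  rw [funext fun ω => G.hx_eq_sum S (φ ω) hx]
  exact measurable_sum _ fun y hy => (hφ y hy).mul_const _

theorem measurable_en {Ω : Type*} [MeasurableSpace Ω] (S : Finset V) {u v : Ω → V → ℝ}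
    (hu : ∀ y ∈ G.clo S, Measurable fun ω => u ω y)
    (hv : ∀ y ∈ G.clo S, Measurable fun ω => v ω y) :
    Measurable fun ω => G.en S (u ω) (v ω) := by
  refine Measurable.const_mul (measurable_sum _ fun x hx => measurable_sum _ fun y hy => ?_) _
  have h1 := G.mem_clo.2 (Or.inl hx)
  have h2 := G.mem_clo.2 (Or.inr ⟨x, hx, hy⟩)
  exact ((hu x h1).sub (hu y h2)).mul ((hv x h1).sub (hv y h2))

theorem measurable_nu {Ω : Type*} [MeasurableSpace Ω] (S : Finset V) {φ : Ω → V → ℝ}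
    (hφ : ∀ y ∈ G.clo S, Measurable fun ω => φ ω y) : Measurable fun ω => G.nu S (φ ω) :=
  G.measurable_en S (fun _ hx => G.measurable_hx S hφ hx) fun _ hx => G.measurable_hx S hφ hx

end Pool.Agent.Lib.MP_0d9445_pr.Net
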