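import Pool.Agent.Lib.MP_0d9445_pr.Net.Min

open Finset
open scoped Classical

noncomputable section

namespace Pool.Agent.Lib.MP_0d9445_pr.Net

variable {V V' : Type*} {G : Net V} {G' : Net V'} {e : V → V'} {S : Finset V}

/-- `e` identifies the edges starting in `S` with the edges starting in its image -/
structure LocIso (G : Net V) (G' : Net V') (e : V → V') (S : Finset V) : Prop where
  inj : Set.InjOn e (G.clo S)
  nbr : ∀ x ∈ S, G'.N (e x) = (G.N x).image e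

theorem LocIso.of_eq {G G' : Net V} {S : Finset V} (h : ∀ x ∈ S, G'.N x = G.N x) :
    LocIso G G' id S := ⟨fun _ _ _ _ h => h, fun x hx => by simp [h x hx]⟩

theorem LocIso.mono (h : LocIso G G' e S) {T : Finset V} (hT : T ⊆ S) : LocIso G G' e T :=
  ⟨h.inj.mono fun y hy => by
    rcases G.mem_clo.1 (mem_coe.1 hy) with h1 | ⟨x, hx, h1⟩
    · exact mem_coe.2 (G.mem_clo.2 (Or.inl (hT h1)))
    · exact mem_coe.2 (G.mem_clo.2 (Or.inr ⟨x, hT hx, h1⟩)), fun x hx => h.nbr x (hT hx)⟩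

theorem LocIso.sum_nbr (h : LocIso G G' e S) {x : V} (hx : x ∈ S) (a : V' → ℝ) :
    ∑ y ∈ G'.N (e x), a y = ∑ y ∈ G.N x, a (e y) := by
  rw [h.nbr x hx, sum_image fun y hy z hz => h.inj
    (mem_coe.2 (G.mem_clo.2 (Or.inr ⟨x, hx, hy⟩))) (mem_coe.2 (G.mem_clo.2 (Or.inr ⟨x, hx, hz⟩)))]

theorem LocIso.sum_pts (h : LocIso G G' e S) (a : V' → ℝ) :
    ∑ x ∈ S.image e, a x = ∑ x ∈ S, a (e x) :=
  sum_image fun _ hy _ hz => h.inj
    (mem_coe.2 (G.mem_clo.2 (Or.inl hy))) (mem_coe.2 (G.mem_clo.2 (Or.inl hz)))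

theorem LocIso.deg_eq (h : LocIso G G' e S) {x : V} (hx : x ∈ S) : G'.deg (e x) = G.deg x := by
  simpa [deg] using h.sum_nbr hx fun _ => 1

theorem LocIso.lap_eq (h : LocIso G G' e S) {x : V} (hx : x ∈ S) (u : V' → ℝ) :
    G'.lap u (e x) = G.lap (u ∘ e) x := h.sum_nbr hx _

theorem LocIso.en_eq (h : LocIso G G' e S) (u v : V' → ℝ) :
    G'.en (S.image e) u v = G.en S (u ∘ e) (v ∘ e) := by
  unfold en
  rw [h.sum_pts]
  congr 1
  exact sum_congr rfl fun x hx => h.sum_nbr hx _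

theorem LocIso.clo_eq (h : LocIso G G' e S) : G'.clo (S.image e) = (G.clo S).image e := by
  ext y
  simp only [mem_clo, mem_image]
  constructor
  · rintro (⟨x, hx, rfl⟩ | ⟨_, ⟨x, hx, rfl⟩, hy⟩)
    · exact ⟨x, Or.inl hx, rfl⟩
    · rw [h.nbr x hx, mem_image] at hy
      obtain ⟨z, hz, rfl⟩ := hy
      exact ⟨z, Or.inr ⟨x, hx, hz⟩, rfl⟩
  · rintro ⟨z, hz | ⟨x, hx, hz⟩, rfl⟩
    · exact Or.inl ⟨z, hz, rfl⟩
    · exact Or.inr ⟨e x, ⟨x, hx, rfl⟩, by rw [h.nbr x hx]; exact mem_image_of_mem e hz⟩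

theorem LocIso.mem_inner_iff (h : LocIso G G' e S) {x : V} (hx : x ∈ G.clo S) :
    e x ∈ G'.inner (S.image e) ↔ x ∈ G.inner S := by
  have key : ∀ y ∈ G.clo S, e y ∈ S.image e → y ∈ S := fun y hy hy' => by
    obtain ⟨z, hz, hzy⟩ := mem_image.1 hy'
    rwa [← h.inj (mem_coe.2 (G.mem_clo.2 (Or.inl hz))) (mem_coe.2 hy) hzy]
  rw [mem_inner, mem_inner]
  constructor
  · rintro ⟨h1, h2⟩
    have hxS := key x hx h1
    refine ⟨hxS, fun y hy => key y (G.mem_clo.2 (Or.inr ⟨x, hxS, hy⟩)) (h2 ?_)⟩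
    rw [h.nbr x hxS]
    exact mem_image_of_mem e hy
  · rintro ⟨h1, h2⟩
    refine ⟨mem_image_of_mem e h1, ?_⟩
    rw [h.nbr x h1]
    exact image_subset_image h2

theorem LocIso.inner_eq (h : LocIso G G' e S) : G'.inner (S.image e) = (G.inner S).image e := by
  ext y
  constructor
  · intro hy
    obtain ⟨x, hx, rfl⟩ := mem_image.1 (G'.inner_subset _ hy)
    exact mem_image_of_mem e ((h.mem_inner_iff (G.mem_clo.2 (Or.inl hx))).1 hy)
  · intro hy
    obtain ⟨x, hx, rfl⟩ := mem_image.1 hy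
    exact (h.mem_inner_iff (G.mem_clo.2 (Or.inl (G.inner_subset S hx)))).2 hx

theorem LocIso.nu_eq (h : LocIso G G' e S) (φ : V' → ℝ) :
    G'.nu (S.image e) φ = G.nu S (φ ∘ e) := by
  rw [nu, h.en_eq]
  refine (G.nu_eq_of_harm S (fun x hx hi => ?_) fun x hx => ?_).symm
  · exact G'.hx_out _ φ fun h' => hi ((h.mem_inner_iff hx).1 h')
  · have hxS := G.inner_subset S hx
    rw [← h.lap_eq hxS]
    exact G'.hx_lap _ φ ((h.mem_inner_iff (G.mem_clo.2 (Or.inl hxS))).2 hx)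

theorem en_congr_net {G G' : Net V} {S : Finset V} (h : ∀ x ∈ S, G'.N x = G.N x) (u v : V → ℝ) :
    G'.en S u v = G.en S u v := by simpa using (LocIso.of_eq h).en_eq u v

theorem nu_congr_net {G G' : Net V} {S : Finset V} (h : ∀ x ∈ S, G'.N x = G.N x) (φ : V → ℝ) :
    G'.nu S φ = G.nu S φ := by simpa using (LocIso.of_eq h).nu_eq φ

/-- the minimal energy as an infimum -/
theorem nu_eq_sInf (G : Net V) (S : Finset V) (φ : V → ℝ) :
    G.nu S φ = sInf {E | ∃ w : V → ℝ, (∀ x, x ∉ G.inner S → w x = φ x) ∧ G.en S w w = E} := by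
  symm
  refine IsLeast.csInf_eq ⟨⟨G.hx S φ, fun x hx => G.hx_out S φ hx, rfl⟩, ?_⟩
  rintro E ⟨w, hw, rfl⟩
  exact G.nu_le S fun x _ hx => hw x hx

end Pool.Agent.Lib.MP_0d9445_pr.Net
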