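import Pool.Agent.Lib.MP_0d9445_pr.Net.Min

open Finset
open scoped Classical

noncomputable section

namespace Pool.Agent.Lib.MP_0d9445_pr.Net

variable {V : Type*} (G : Net V)

/-- the energy form with a weight at the starting point of each edge -/
def enw (S : Finset V) (a u v : V → ℝ) : ℝ :=
  1 / 2 * ∑ x ∈ S, ∑ y ∈ G.N x, a x * ((u x - u y) * (v x - v y))

theorem enw_comm (S : Finset V) (a u v : V → ℝ) : G.enw S a u v = G.enw S a v u := by
  simp only [enw, mul_comm (u _ - u _)]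

theorem enw_const (S : Finset V) (c : ℝ) (u v : V → ℝ) :
    G.enw S (fun _ => c) u v = c * G.en S u v := by
  simp only [enw, en, ← mul_sum]; ring

theorem enw_sub_weight (S : Finset V) (a b u v : V → ℝ) :
    G.enw S (a - b) u v = G.enw S a u v - G.enw S b u v := by
  simp only [enw, Pi.sub_apply, ← mul_sub, ← sum_sub_distrib]
  congr 1
  exact sum_congr rfl fun x _ => sum_congr rfl fun y _ => by ring

theorem enw_add_weight (S : Finset V) (a b u v : V → ℝ) :
    G.enw S (a + b) u v = G.enw S a u v + G.enw S b u v := by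
  simp only [enw, Pi.add_apply, ← mul_add, ← sum_add_distrib]
  congr 1
  exact sum_congr rfl fun x _ => sum_congr rfl fun y _ => by ring

theorem enw_sub_right (S : Finset V) (a u v w : V → ℝ) :
    G.enw S a u (v - w) = G.enw S a u v - G.enw S a u w := by
  simp only [enw, Pi.sub_apply, ← mul_sub, ← sum_sub_distrib]
  congr 1
  exact sum_congr rfl fun x _ => sum_congr rfl fun y _ => by ring

theorem enw_biUnion {ι : Type*} (s : Finset ι) (S : ι → Finset V)
    (h : (s : Set ι).PairwiseDisjoint S) (a u v : V → ℝ) :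
    G.enw (s.biUnion S) a u v = ∑ i ∈ s, G.enw (S i) a u v := by
  simp only [enw, sum_biUnion h, mul_sum]

theorem enw_congr_weight {S : Finset V} {a b : V → ℝ} (h : ∀ x ∈ S, a x = b x) (u v : V → ℝ) :
    G.enw S a u v = G.enw S b u v := by
  unfold enw
  congr 1
  exact sum_congr rfl fun x hx => by rw [h x hx]

/-- the weighted form only sees the vertices where the weight does not vanish -/
theorem enw_subset {S T : Finset V} (h : S ⊆ T) {a : V → ℝ} (ha : ∀ x ∈ T, x ∉ S → a x = 0)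
    (u v : V → ℝ) : G.enw S a u v = G.enw T a u v := by
  unfold enw
  congr 1
  exact sum_subset h fun x hx hx' => by simp [ha x hx hx']

/-- Cauchy-Schwarz over the edges -/
theorem edge_cs (S : Finset V) (p q : V → V → ℝ) :
    |1 / 2 * ∑ x ∈ S, ∑ y ∈ G.N x, p x y * q x y| ≤
      √(1 / 2 * ∑ x ∈ S, ∑ y ∈ G.N x, p x y * p x y) *
        √(1 / 2 * ∑ x ∈ S, ∑ y ∈ G.N x, q x y * q x y) := by
  rw [← Real.sqrt_mul (mul_nonneg (by norm_num)
    (sum_nonneg fun _ _ => sum_nonneg fun _ _ => mul_self_nonneg _))]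
  refine Real.abs_le_sqrt ?_
  have h := sum_mul_sq_le_sq_mul_sq (S.sigma G.N) (fun z => p z.1 z.2) fun z => q z.1 z.2
  simp only [sum_sigma, sq (p _ _), sq (q _ _)] at h
  nlinarith

/-- an edge sum with a bounded factor -/
theorem edge_bound (S : Finset V) (r : V → V → ℝ) (u v : V → ℝ) {B : ℝ} (hB : 0 ≤ B)
    (hr : ∀ x ∈ S, ∀ y ∈ G.N x, |r x y| ≤ B) :
    |1 / 2 * ∑ x ∈ S, ∑ y ∈ G.N x, r x y * ((u x - u y) * (v x - v y))| ≤
      B * (√(G.en S u u) * √(G.en S v v)) := by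
  have h := G.edge_cs S (fun x y => r x y * (u x - u y)) fun x y => v x - v y
  simp only [mul_assoc (r _ _)] at h
  refine h.trans ?_
  rw [← mul_assoc]
  refine mul_le_mul_of_nonneg_right ?_ (Real.sqrt_nonneg _)
  rw [← Real.sqrt_sq hB, ← Real.sqrt_mul (sq_nonneg B), ← en_smul_left]
  refine Real.sqrt_le_sqrt (mul_le_mul_of_nonneg_left (sum_le_sum fun x hx =>
    sum_le_sum fun y hy => ?_) (by norm_num))
  have h1 : r x y ^ 2 ≤ B ^ 2 := sq_le_sq' (abs_le.1 (hr x hx y hy)).1 (abs_le.1 (hr x hx y hy)).2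
  simp only [Pi.smul_apply, smul_eq_mul]
  nlinarith [mul_self_nonneg (u x - u y)]

theorem abs_enw_le (S : Finset V) {a : V → ℝ} (u v : V → ℝ) {B : ℝ} (hB : 0 ≤ B)
    (ha : ∀ x ∈ S, |a x| ≤ B) : |G.enw S a u v| ≤ B * (√(G.en S u u) * √(G.en S v v)) :=
  G.edge_bound S (fun x _ => a x) u v hB fun x hx _ _ => ha x hx

/-- product rule with weights at the starting points -/
theorem en_mul_eq (S : Finset V) (u a b : V → ℝ) :
    G.en S u (a * b) = G.enw S a u b +
      1 / 2 * ∑ x ∈ S, ∑ y ∈ G.N x, b y * ((u x - u y) * (a x - a y)) := by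
  simp only [en, enw, ← mul_add, ← sum_add_distrib]
  congr 1
  refine sum_congr rfl fun x _ => sum_congr rfl fun y _ => ?_
  simp only [Pi.mul_apply]; ring

theorem en_mul_approx (S : Finset V) (u a b : V → ℝ) {η : ℝ} (hη : 0 ≤ η)
    (ha : ∀ x ∈ S, ∀ y ∈ G.N x, |a x - a y| ≤ η) :
    |G.en S u (a * b) - (G.enw S a u b + G.enw S b u a)| ≤
      η * (√(G.en S u u) * √(G.en S b b)) := by
  have h := G.edge_bound S (fun x y => -(a x - a y)) u b hη fun x hx y hy => by
    rw [abs_neg]; exact ha x hx y hy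
  refine le_of_eq_of_le ?_ h
  congr 1
  simp only [en, enw, ← mul_add, ← mul_sub, ← sum_add_distrib, ← sum_sub_distrib]
  congr 1
  refine sum_congr rfl fun x _ => sum_congr rfl fun y _ => ?_
  simp only [Pi.mul_apply]; ring

/-- pairing with a function which vanishes off the inner vertices -/
theorem abs_en_le_lap (S : Finset V) (u : V → ℝ) {v : V → ℝ}
    (hv : ∀ x ∈ G.clo S, x ∉ G.inner S → v x = 0) :
    |G.en S u v| ≤ ∑ x ∈ G.inner S, |v x| * |G.lap u x| := by
  have h1 : G.en S u v = G.en S u fun x => if x ∈ G.inner S then v x else 0 :=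
    G.en_congr (fun _ _ => rfl) fun x hx => by
      split_ifs with h
      · rfl
      · exact hv x hx h
  rw [h1, G.en_eq_sum subset_rfl u fun x hx => if_neg hx]
  refine (abs_sum_le_sum_abs _ _).trans (sum_le_sum fun x hx => ?_)
  rw [if_pos hx, abs_mul, mul_comm]

/-- the div-curl identity with explicit errors -/
theorem tartar (S : Finset V) (u w l χ : V → ℝ) {η δ : ℝ} (hη : 0 ≤ η) (hδ : 0 ≤ δ)
    (hw : ∀ x ∈ G.inner S, G.lap w x = 0) (hχ0 : ∀ x ∈ G.clo S, x ∉ G.inner S → χ x = 0)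
    (hχ : ∀ x ∈ S, ∀ y ∈ G.N x, |χ x - χ y| ≤ η) (hc : ∀ x ∈ G.clo S, |w x - l x| ≤ δ) :
    |G.enw S χ u l + G.enw S u w χ| ≤ η * (√(G.en S w w) * √(G.en S u u)) +
      δ * ∑ x ∈ G.inner S, |χ x| * |G.lap u x| + δ * (√(G.en S u u) * √(G.en S χ χ)) := by
  have h1 := G.en_mul_approx S w χ u hη hχ
  rw [G.en_harm hw (v := χ * u) fun x hx hi => by rw [Pi.mul_apply, hχ0 x hx hi, zero_mul],
    zero_sub, abs_neg] at h1
  have h2 : |G.en S u (χ * (w - l))| ≤ δ * ∑ x ∈ G.inner S, |χ x| * |G.lap u x| := by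
    refine (G.abs_en_le_lap S u (v := χ * (w - l))
      fun x hx hi => by rw [Pi.mul_apply, hχ0 x hx hi, zero_mul]).trans ?_
    rw [mul_sum]
    refine sum_le_sum fun x hx => ?_
    rw [Pi.mul_apply, abs_mul, ← mul_assoc, mul_comm δ]
    exact mul_le_mul_of_nonneg_right (mul_le_mul_of_nonneg_left
      (hc x (G.mem_clo.2 (Or.inl (G.inner_subset S hx)))) (abs_nonneg _)) (abs_nonneg _)
  have h3 := G.edge_bound S (fun _ y => (w - l) y) u χ hδ fun x hx y hy =>
    hc y (G.mem_clo.2 (Or.inr ⟨x, hx, hy⟩))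
  rw [en_mul_eq, enw_sub_right, G.enw_comm S χ u w] at h2
  rw [abs_le] at h1 h2 h3 ⊢
  constructor <;> linarith [h1.1, h1.2, h2.1, h2.2, h3.1, h3.2]

/-- replacing the weight by constants on the pieces of a partition -/
theorem enw_pieces {ι : Type*} (s : Finset ι) (S : ι → Finset V)
    (h : (s : Set ι).PairwiseDisjoint S) (a u v : V → ℝ) (c : ι → ℝ) {θ : ℝ} (hθ : 0 ≤ θ)
    (ha : ∀ i ∈ s, ∀ x ∈ S i, |a x - c i| ≤ θ) :
    |G.enw (s.biUnion S) a u v - ∑ i ∈ s, c i * G.en (S i) u v| ≤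
      θ * (√(G.en (s.biUnion S) u u) * √(G.en (s.biUnion S) v v)) := by
  have key : ∀ i ∈ s, ∀ x ∈ S i, ∑ j ∈ s, (if x ∈ S j then c j else 0) = c i := by
    intro i hi x hx
    rw [sum_eq_single_of_mem i hi fun j hj hji =>
      if_neg fun hxj => disjoint_left.1 (h hj hi hji) hxj hx, if_pos hx]
  have h1 : ∑ i ∈ s, c i * G.en (S i) u v =
      G.enw (s.biUnion S) (fun x => ∑ j ∈ s, if x ∈ S j then c j else 0) u v := by
    rw [G.enw_biUnion s S h]
    exact sum_congr rfl fun i hi => by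
      rw [G.enw_congr_weight (b := fun _ => c i) (key i hi), enw_const]
  rw [h1, ← enw_sub_weight]
  refine G.abs_enw_le _ u v hθ fun x hx => ?_
  obtain ⟨i, hi, hxi⟩ := mem_biUnion.1 hx
  rw [Pi.sub_apply, key i hi x hxi]
  exact ha i hi x hxi

/-- the sum of the squared lengths of the edges -/
def len2 (G : Net ℂ) (S : Finset ℂ) : ℝ :=
  G.en S Complex.re Complex.re + G.en S Complex.im Complex.im

theorem len2_eq (G : Net ℂ) (S : Finset ℂ) :
    G.len2 S = 1 / 2 * ∑ x ∈ S, ∑ y ∈ G.N x, ‖x - y‖ * ‖x - y‖ := by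
  simp only [len2, en, ← mul_add, ← sum_add_distrib]
  congr 1
  refine sum_congr rfl fun x _ => sum_congr rfl fun y _ => ?_
  rw [← sq ‖x - y‖, Complex.sq_norm, Complex.normSq_apply, Complex.sub_re, Complex.sub_im]

/-- first order Taylor expansion along the edges -/
theorem enw_taylor (G : Net ℂ) (S : Finset ℂ) (a u v d₁ d₂ : ℂ → ℝ) {B θ : ℝ} (hB : 0 ≤ B)
    (hθ : 0 ≤ θ) (ha : ∀ x ∈ S, |a x| ≤ B)
    (hv : ∀ x ∈ S, ∀ y ∈ G.N x,
      |v x - v y - (d₁ x * (x.re - y.re) + d₂ x * (x.im - y.im))| ≤ θ * ‖x - y‖) :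
    |G.enw S a u v - (G.enw S (a * d₁) u Complex.re + G.enw S (a * d₂) u Complex.im)| ≤
      B * θ * (√(G.en S u u) * √(G.len2 S)) := by
  have h := G.edge_cs S (fun x y => u x - u y)
    fun x y => a x * (v x - v y - (d₁ x * (x.re - y.re) + d₂ x * (x.im - y.im)))
  refine le_of_eq_of_le ?_ (h.trans ?_)
  · congr 1
    simp only [enw, ← mul_add, ← mul_sub, ← sum_add_distrib, ← sum_sub_distrib]
    congr 1
    refine sum_congr rfl fun x _ => sum_congr rfl fun y _ => ?_
    simp only [Pi.mul_apply]; ring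
  · have hBθ : 0 ≤ B * θ := mul_nonneg hB hθ
    rw [mul_left_comm (B * θ)]
    refine mul_le_mul_of_nonneg_left ?_ (Real.sqrt_nonneg _)
    rw [← Real.sqrt_sq hBθ, ← Real.sqrt_mul (sq_nonneg _), len2_eq, mul_left_comm ((B * θ) ^ 2)]
    refine Real.sqrt_le_sqrt (mul_le_mul_of_nonneg_left ?_ (by norm_num))
    rw [mul_sum]
    refine sum_le_sum fun x hx => ?_
    rw [mul_sum]
    refine sum_le_sum fun y hy => ?_
    have h1 : |a x * (v x - v y - (d₁ x * (x.re - y.re) + d₂ x * (x.im - y.im)))| ≤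
        B * (θ * ‖x - y‖) := by
      rw [abs_mul]
      exact mul_le_mul (ha x hx) (hv x hx y hy) (abs_nonneg _) hB
    have h2 := mul_self_le_mul_self (abs_nonneg _) h1
    rw [abs_mul_abs_self] at h2
    refine h2.trans (le_of_eq ?_)
    ring

end Pool.Agent.Lib.MP_0d9445_pr.Net
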