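import Mathlib

open Finset MeasureTheory
open scoped Classical ENNReal

noncomputable section

namespace Pool.Agent.Lib.MP_0d9445_pr

/-- a locally finite graph, given by its finite sets of neighbours -/
structure Net (V : Type*) where
  N : V → Finset V
  symm : ∀ x y, y ∈ N x → x ∈ N y

namespace Net

variable {V : Type*} (G : Net V)

/-- the net of a simple graph with finite neighbour sets -/
def ofGraph (H : SimpleGraph V) (h : ∀ x, (H.neighborSet x).Finite) : Net V where
  N x := (h x).toFinset
  symm x y hy := by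
    rw [Set.Finite.mem_toFinset] at hy ⊢
    exact H.adj_symm hy

/-- the degree -/
def deg (x : V) : ℝ := (G.N x).card

/-- the positive Laplacian -/
def lap (u : V → ℝ) (x : V) : ℝ := ∑ y ∈ G.N x, (u x - u y)

/-- the energy form of the oriented edges starting in `S` -/
def en (S : Finset V) (u v : V → ℝ) : ℝ :=
  1 / 2 * ∑ x ∈ S, ∑ y ∈ G.N x, (u x - u y) * (v x - v y)

/-- size of the gradient at a vertex -/
def gr (u : V → ℝ) (x : V) : ℝ := √(∑ y ∈ G.N x, (u x - u y) ^ 2)

/-- the vertices of `S` with all neighbours in `S` -/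
def inner (S : Finset V) : Finset V := S.filter fun x => G.N x ⊆ S

/-- `F` together with all neighbours -/
def clo (F : Finset V) : Finset V := F ∪ F.biUnion G.N

/-- connected in the graph -/
def Reach (x y : V) : Prop := Relation.ReflTransGen (fun a b => b ∈ G.N a) x y

/-- every vertex of `F` is connected to a vertex outside `F` -/
def Esc (F : Finset V) : Prop := ∀ x ∈ F, ∃ y, y ∉ F ∧ G.Reach x y

/-- `lap u + k u = f` on `F` and `u = b` off `F` -/
def Sol (F : Finset V) (k f b u : V → ℝ) : Prop :=
  (∀ x, x ∉ F → u x = b x) ∧ ∀ x ∈ F, G.lap u x + k x * u x = f x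

/-- the solution of the boundary value problem -/
def solve (F : Finset V) (k f b : V → ℝ) : V → ℝ := Classical.epsilon (G.Sol F k f b)

/-- the Green function of `F` with killing `k` -/
def green (F : Finset V) (k : V → ℝ) (x : V) : V → ℝ :=
  G.solve F k (fun y => if y = x then 1 else 0) 0

/-- the vertices of `F` connected to the complement of `F` -/
def esc (F : Finset V) : Finset V := F.filter fun x => ∃ y, y ∉ F ∧ G.Reach x y

/-- a harmonic extension into `F`, defined for every `F` -/
def hext (F : Finset V) (φ : V → ℝ) : V → ℝ :=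
  G.solve (G.esc F) 0 0 fun x => if x ∈ F then 0 else φ x

/-- the minimiser of the energy of `S` with data `φ` off the inner vertices of `S` -/
def hx (S : Finset V) (φ : V → ℝ) : V → ℝ := G.hext (G.inner S) φ

/-- the minimal energy of `S` with data `φ` off the inner vertices of `S` -/
def nu (S : Finset V) (φ : V → ℝ) : ℝ := G.en S (G.hx S φ) (G.hx S φ)

/-- possible moves of the walk (it stays at an isolated vertex) -/
def mv (x : V) : Finset V := if (G.N x).Nonempty then G.N x else {x}

/-- transition probability -/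
def step (x y : V) : ℝ≥0∞ := if y ∈ G.mv x then ((G.mv x).card : ℝ≥0∞)⁻¹ else 0

/-- paths which agree with `v` up to time `n` -/
def cyl (n : ℕ) (v : ℕ → V) : Set (ℕ → V) := {ω | ∀ i ≤ n, ω i = v i}

/-- probability of the first `n` steps of `v` -/
def wt (n : ℕ) (v : ℕ → V) : ℝ≥0∞ := ∏ i ∈ range n, G.step (v i) (v (i + 1))

/-- `μ` is the law of the simple random walk from `x` -/
def IsWalk [MeasurableSpace V] (x : V) (μ : Measure (ℕ → V)) : Prop :=
  IsProbabilityMeasure μ ∧ ∀ n v, μ (cyl n v) = if v 0 = x then G.wt n v else 0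

theorem mv_nonempty (x : V) : (G.mv x).Nonempty := by
  unfold mv
  split_ifs with h
  · exact h
  · exact singleton_nonempty x

instance (x : V) : Nonempty (G.mv x) := (G.mv_nonempty x).to_subtype

/-- the walk driven by independent choices -/
def run (x : V) (ξ : (i : ℕ × V) → G.mv i.2) : ℕ → V
  | 0 => x
  | n + 1 => (ξ (n, run x ξ n) : V)

/-- the law of the simple random walk from `x` -/
def law [MeasurableSpace V] (x : V) : Measure (ℕ → V) :=
  (Measure.infinitePi fun i : ℕ × V =>
    (ProbabilityTheory.uniformOn Set.univ : Measure (G.mv i.2))).map (G.run x)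

/-- time shift -/
def shift (n : ℕ) (ω : ℕ → V) : ℕ → V := fun i => ω (n + i)

/-- `v` up to time `n`, then `ω` -/
def glue (n : ℕ) (v ω : ℕ → V) : ℕ → V := fun i => if i ≤ n then v i else ω (i - n)

/-- `x`, then `ω` -/
def cons (x : V) (ω : ℕ → V) : ℕ → V
  | 0 => x
  | i + 1 => ω i

/-- the first time outside `F` (`0` if there is none) -/
def exitT (F : Set V) (ω : ℕ → V) : ℕ := sInf {k | ω k ∉ F}

/-- `τ` is a stopping time which is finite on the event `E` -/
def IsStop (E : Set (ℕ → V)) (τ : (ℕ → V) → ℕ) : Prop :=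
  ∀ ω ∈ E, ∀ ω' ∈ cyl (τ ω) ω, ω' ∈ E ∧ τ ω' = τ ω

end Net

end Pool.Agent.Lib.MP_0d9445_pr
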