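import Pool.Agent.Lib.MP_0d9445_pr.Net.Defs

open Finset
open scoped Classical

noncomputable section

namespace Pool.Agent.Lib.MP_0d9445_pr.Net

variable {V : Type*} (G : Net V)

theorem mem_comm {x y : V} : y ∈ G.N x ↔ x ∈ G.N y := ⟨G.symm x y, G.symm y x⟩

theorem deg_nonneg (x : V) : 0 ≤ G.deg x := Nat.cast_nonneg _

theorem mem_inner {S : Finset V} {x : V} : x ∈ G.inner S ↔ x ∈ S ∧ G.N x ⊆ S := mem_filter

theorem inner_subset (S : Finset V) : G.inner S ⊆ S := filter_subset _ _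

theorem inner_mono {S T : Finset V} (h : S ⊆ T) : G.inner S ⊆ G.inner T := fun _ hx =>
  G.mem_inner.2 ⟨h (G.mem_inner.1 hx).1, (G.mem_inner.1 hx).2.trans h⟩

theorem mem_clo {F : Finset V} {y : V} : y ∈ G.clo F ↔ y ∈ F ∨ ∃ x ∈ F, y ∈ G.N x := by
  simp [clo]

theorem subset_inner_clo (F : Finset V) : F ⊆ G.inner (G.clo F) := fun x hx =>
  G.mem_inner.2 ⟨G.mem_clo.2 (Or.inl hx), fun _ hy => G.mem_clo.2 (Or.inr ⟨x, hx, hy⟩)⟩

theorem lap_eq (u : V → ℝ) (x : V) : G.lap u x = G.deg x * u x - ∑ y ∈ G.N x, u y := by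
  simp [lap, deg, sum_sub_distrib]

theorem lap_add (u v : V → ℝ) (x : V) : G.lap (u + v) x = G.lap u x + G.lap v x := by
  simp only [lap, Pi.add_apply, ← sum_add_distrib]
  exact sum_congr rfl fun y _ => by ring

theorem lap_sub (u v : V → ℝ) (x : V) : G.lap (u - v) x = G.lap u x - G.lap v x := by
  simp only [lap, Pi.sub_apply, ← sum_sub_distrib]
  exact sum_congr rfl fun y _ => by ring

theorem lap_smul (c : ℝ) (u : V → ℝ) (x : V) : G.lap (c • u) x = c * G.lap u x := by
  simp only [lap, Pi.smul_apply, smul_eq_mul, mul_sum]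
  exact sum_congr rfl fun y _ => by ring

theorem lap_neg (u : V → ℝ) (x : V) : G.lap (-u) x = -G.lap u x := by
  simp only [lap, Pi.neg_apply, ← sum_neg_distrib]
  exact sum_congr rfl fun y _ => by ring

theorem lap_const (c : ℝ) (x : V) : G.lap (fun _ => c) x = 0 := by simp [lap]

theorem lap_zero (x : V) : G.lap 0 x = 0 := by simp [lap]

theorem lap_sum {ι : Type*} (s : Finset ι) (u : ι → V → ℝ) (x : V) :
    G.lap (fun y => ∑ i ∈ s, u i y) x = ∑ i ∈ s, G.lap (u i) x := by
  simp only [lap, ← sum_sub_distrib]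
  exact sum_comm

theorem lap_congr {u v : V → ℝ} {x : V} (hx : u x = v x) (h : ∀ y ∈ G.N x, u y = v y) :
    G.lap u x = G.lap v x :=
  sum_congr rfl fun y hy => by rw [hx, h y hy]

theorem en_comm (S : Finset V) (u v : V → ℝ) : G.en S u v = G.en S v u := by
  simp only [en, mul_comm (u _ - u _)]

theorem en_add_left (S : Finset V) (u v w : V → ℝ) :
    G.en S (u + v) w = G.en S u w + G.en S v w := by
  simp only [en, Pi.add_apply, ← mul_add, ← sum_add_distrib]
  congr 1
  exact sum_congr rfl fun x _ => sum_congr rfl fun y _ => by ring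

theorem en_sub_left (S : Finset V) (u v w : V → ℝ) :
    G.en S (u - v) w = G.en S u w - G.en S v w := by
  simp only [en, Pi.sub_apply, ← mul_sub, ← sum_sub_distrib]
  congr 1
  exact sum_congr rfl fun x _ => sum_congr rfl fun y _ => by ring

theorem en_smul_left (S : Finset V) (c : ℝ) (u w : V → ℝ) :
    G.en S (c • u) w = c * G.en S u w := by
  simp only [en, Pi.smul_apply, smul_eq_mul, mul_sum]
  exact sum_congr rfl fun x _ => sum_congr rfl fun y _ => by ring

theorem en_add_right (S : Finset V) (u v w : V → ℝ) :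
    G.en S w (u + v) = G.en S w u + G.en S w v := by
  rw [en_comm, en_add_left, G.en_comm S u, G.en_comm S v]

theorem en_sub_right (S : Finset V) (u v w : V → ℝ) :
    G.en S w (u - v) = G.en S w u - G.en S w v := by
  rw [en_comm, en_sub_left, G.en_comm S u, G.en_comm S v]

theorem en_smul_right (S : Finset V) (c : ℝ) (u w : V → ℝ) :
    G.en S w (c • u) = c * G.en S w u := by
  rw [en_comm, en_smul_left, G.en_comm S u]

theorem en_const_left (S : Finset V) (c : ℝ) (w : V → ℝ) : G.en S (fun _ => c) w = 0 := by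
  simp [en]

theorem en_const_right (S : Finset V) (c : ℝ) (w : V → ℝ) : G.en S w (fun _ => c) = 0 := by
  simp [en]

theorem en_sum_left {ι : Type*} (S : Finset V) (s : Finset ι) (u : ι → V → ℝ) (w : V → ℝ) :
    G.en S (fun y => ∑ i ∈ s, u i y) w = ∑ i ∈ s, G.en S (u i) w := by
  simp only [en, ← sum_sub_distrib, sum_mul, ← mul_sum]
  congr 1
  rw [sum_comm]
  exact sum_congr rfl fun x _ => sum_comm

theorem en_nonneg (S : Finset V) (u : V → ℝ) : 0 ≤ G.en S u u :=
  mul_nonneg (by norm_num) (sum_nonneg fun _ _ => sum_nonneg fun _ _ => mul_self_nonneg _)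

theorem en_add_self (S : Finset V) (u v : V → ℝ) :
    G.en S (u + v) (u + v) = G.en S u u + 2 * G.en S u v + G.en S v v := by
  rw [en_add_left, en_add_right, en_add_right, G.en_comm S v u]; ring

theorem en_sub_self (S : Finset V) (u v : V → ℝ) :
    G.en S (u - v) (u - v) = G.en S u u - 2 * G.en S u v + G.en S v v := by
  rw [en_sub_left, en_sub_right, en_sub_right, G.en_comm S v u]; ring

theorem en_add_le (S : Finset V) (u v : V → ℝ) :
    G.en S (u + v) (u + v) ≤ 2 * G.en S u u + 2 * G.en S v v := by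
  have h := G.en_nonneg S (u - v)
  rw [en_sub_self] at h
  rw [en_add_self]; linarith

/-- Cauchy-Schwarz -/
theorem en_sq_le (S : Finset V) (u v : V → ℝ) : G.en S u v ^ 2 ≤ G.en S u u * G.en S v v := by
  have h : ∀ t : ℝ, 0 ≤ G.en S v v * (t * t) + 2 * G.en S u v * t + G.en S u u := by
    intro t
    have := G.en_nonneg S (u + t • v)
    rw [en_add_self, en_smul_right, en_smul_left, en_smul_right] at this
    linarith
  have := discrim_le_zero h
  rw [discrim] at this
  nlinarith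

theorem abs_en_le (S : Finset V) (u v : V → ℝ) :
    |G.en S u v| ≤ √(G.en S u u) * √(G.en S v v) := by
  rw [← Real.sqrt_mul (G.en_nonneg S u)]
  exact Real.abs_le_sqrt (G.en_sq_le S u v)

theorem en_union {S T : Finset V} (h : Disjoint S T) (u v : V → ℝ) :
    G.en (S ∪ T) u v = G.en S u v + G.en T u v := by
  simp only [en, sum_union h, mul_add]

theorem en_biUnion {ι : Type*} (s : Finset ι) (S : ι → Finset V)
    (h : (s : Set ι).PairwiseDisjoint S) (u v : V → ℝ) :
    G.en (s.biUnion S) u v = ∑ i ∈ s, G.en (S i) u v := by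
  simp only [en, sum_biUnion h, mul_sum]

theorem en_mono {S T : Finset V} (h : S ⊆ T) (u : V → ℝ) : G.en S u u ≤ G.en T u u :=
  mul_le_mul_of_nonneg_left (sum_le_sum_of_subset_of_nonneg h fun _ _ _ =>
    sum_nonneg fun _ _ => mul_self_nonneg _) (by norm_num)

theorem en_congr {S : Finset V} {u u' v v' : V → ℝ} (hu : ∀ x ∈ G.clo S, u x = u' x)
    (hv : ∀ x ∈ G.clo S, v x = v' x) : G.en S u v = G.en S u' v' := by
  unfold en
  congr 1
  refine sum_congr rfl fun x hx => sum_congr rfl fun y hy => ?_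
  have h1 := G.mem_clo.2 (Or.inl hx)
  have h2 := G.mem_clo.2 (Or.inr ⟨x, hx, hy⟩)
  rw [hu x h1, hu y h2, hv x h1, hv y h2]

/-- comparison of energies edge by edge -/
theorem en_le_en {S : Finset V} {u v u' v' : V → ℝ}
    (h : ∀ x ∈ S, ∀ y ∈ G.N x, (u x - u y) * (v x - v y) ≤ (u' x - u' y) * (v' x - v' y)) :
    G.en S u v ≤ G.en S u' v' :=
  mul_le_mul_of_nonneg_left (sum_le_sum fun x hx => sum_le_sum fun y hy => h x hx y hy)
    (by norm_num)

/-- Lipschitz maps contract the energy -/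
theorem en_comp_le (S : Finset V) (u : V → ℝ) (φ : ℝ → ℝ) (L : ℝ)
    (hφ : ∀ s t, |φ s - φ t| ≤ L * |s - t|) :
    G.en S (fun x => φ (u x)) (fun x => φ (u x)) ≤ L ^ 2 * G.en S u u := by
  rw [← en_smul_left]
  refine G.en_le_en fun x _ y _ => ?_
  have h := mul_self_le_mul_self (abs_nonneg _) (hφ (u x) (u y))
  rw [abs_mul_abs_self] at h
  have h2 : L * |u x - u y| * (L * |u x - u y|) = L ^ 2 * ((u x - u y) * (u x - u y)) := by
    rw [← abs_mul_abs_self (u x - u y)]; ring
  simp only [Pi.smul_apply, smul_eq_mul]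
  nlinarith

/-- a monotone contraction of `u` has energy at most its pairing with `u` -/
theorem en_comp_le_pair (S : Finset V) (u : V → ℝ) (φ : ℝ → ℝ) (hm : Monotone φ)
    (hφ : ∀ s t, s ≤ t → φ t - φ s ≤ t - s) :
    G.en S (fun x => φ (u x)) (fun x => φ (u x)) ≤ G.en S u fun x => φ (u x) := by
  refine G.en_le_en fun x _ y _ => ?_
  rcases le_total (u x) (u y) with h | h
  · have h1 := hm h
    have h2 := hφ _ _ h
    nlinarith
  · have h1 := hm h
    have h2 := hφ _ _ h
    nlinarith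

/-- exchange of the two ends of an edge -/
theorem sum_swap {S F : Finset V} (hF : F ⊆ G.inner S) (a : V → V → ℝ)
    (ha : ∀ x y, y ∉ F → a x y = 0) :
    ∑ x ∈ S, ∑ y ∈ G.N x, a x y = ∑ y ∈ F, ∑ x ∈ G.N y, a x y := by
  have h1 : ∀ x ∈ S, ∑ y ∈ G.N x, a x y = ∑ y ∈ F, if y ∈ G.N x then a x y else 0 := by
    intro x _
    rw [← sum_filter]
    refine (sum_subset (fun y hy => (mem_filter.1 hy).2) fun y hy hy' => ?_).symm
    exact ha x y fun hyF => hy' (mem_filter.2 ⟨hyF, hy⟩)
  rw [sum_congr rfl h1, sum_comm]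
  refine sum_congr rfl fun y hy => ?_
  rw [← sum_filter]
  refine sum_congr ?_ fun _ _ => rfl
  ext x
  rw [mem_filter, G.mem_comm]
  exact ⟨fun h => h.2, fun h => ⟨(G.mem_inner.1 (hF hy)).2 h, h⟩⟩

/-- summation by parts -/
theorem en_eq_sum {S F : Finset V} (hF : F ⊆ G.inner S) (u : V → ℝ) {v : V → ℝ}
    (hv : ∀ x, x ∉ F → v x = 0) : G.en S u v = ∑ x ∈ F, G.lap u x * v x := by
  have h1 : ∑ x ∈ S, ∑ y ∈ G.N x, (u x - u y) * v x = ∑ x ∈ F, G.lap u x * v x := by
    simp only [← sum_mul]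
    refine (sum_subset (hF.trans (G.inner_subset S)) fun x _ hx => ?_).symm
    rw [hv x hx, mul_zero]
  have h2 : ∑ x ∈ S, ∑ y ∈ G.N x, (u y - u x) * v y = ∑ x ∈ F, G.lap u x * v x := by
    rw [G.sum_swap hF (fun x y => (u y - u x) * v y) fun x y hy => by rw [hv y hy, mul_zero]]
    simp only [← sum_mul]
    rfl
  have h3 : ∑ x ∈ S, ∑ y ∈ G.N x, (u x - u y) * (v x - v y) =
      ∑ x ∈ S, ∑ y ∈ G.N x, (u x - u y) * v x + ∑ x ∈ S, ∑ y ∈ G.N x, (u y - u x) * v y := by
    simp only [← sum_add_distrib]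
    exact sum_congr rfl fun x _ => sum_congr rfl fun y _ => by ring
  rw [en, h3, h1, h2]; ring

/-- the energy against a function supported in `F` does not depend on the surrounding set -/
theorem en_indep {S T F : Finset V} (hS : F ⊆ G.inner S) (hT : F ⊆ G.inner T) (u : V → ℝ)
    {v : V → ℝ} (hv : ∀ x, x ∉ F → v x = 0) : G.en S u v = G.en T u v := by
  rw [G.en_eq_sum hS u hv, G.en_eq_sum hT u hv]

/-- product rule -/
theorem en_mul_right (S : Finset V) (u a b : V → ℝ) :
    G.en S u (a * b) = 1 / 2 * ∑ x ∈ S, ∑ y ∈ G.N x,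
      (u x - u y) * ((a x + a y) / 2 * (b x - b y) + (b x + b y) / 2 * (a x - a y)) := by
  unfold en
  congr 1
  refine sum_congr rfl fun x _ => sum_congr rfl fun y _ => ?_
  simp only [Pi.mul_apply]; ring

/-- cutoff identity -/
theorem en_cut (S : Finset V) (u χ : V → ℝ) :
    G.en S (χ * u) (χ * u) = G.en S u (χ * χ * u) +
      1 / 2 * ∑ x ∈ S, ∑ y ∈ G.N x, u x * u y * (χ x - χ y) ^ 2 := by
  simp only [en, ← mul_add, ← sum_add_distrib]
  congr 1
  refine sum_congr rfl fun x _ => sum_congr rfl fun y _ => ?_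
  simp only [Pi.mul_apply]; ring

theorem gr_nonneg (u : V → ℝ) (x : V) : 0 ≤ G.gr u x := Real.sqrt_nonneg _

theorem gr_sq (u : V → ℝ) (x : V) : G.gr u x ^ 2 = ∑ y ∈ G.N x, (u x - u y) ^ 2 :=
  Real.sq_sqrt (sum_nonneg fun _ _ => sq_nonneg _)

theorem sum_gr_sq (S : Finset V) (u : V → ℝ) : ∑ x ∈ S, G.gr u x ^ 2 = 2 * G.en S u u := by
  simp only [gr_sq]
  simp only [en, sq]
  ring

theorem abs_sub_le_gr (u : V → ℝ) {x y : V} (h : y ∈ G.N x) : |u x - u y| ≤ G.gr u x :=
  Real.abs_le_sqrt (single_le_sum (f := fun y => (u x - u y) ^ 2) (fun _ _ => sq_nonneg _) h)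

/-- a chain from below a level to above it has an edge which crosses the level -/
theorem exists_cross {r : V → V → Prop} {x y : V} (h : Relation.ReflTransGen r x y) (u : V → ℝ)
    (t : ℝ) (hx : u x ≤ t) (hy : t < u y) : ∃ a b, r a b ∧ u a ≤ t ∧ t < u b := by
  induction h with
  | refl => exact absurd hx (not_le.2 hy)
  | @tail b c _ hbc ih =>
    rcases le_or_gt (u b) t with h | h
    · exact ⟨b, c, hbc, h, hy⟩
    · exact ih h

/-- oscillation along a set which is connected by edges starting in `C` -/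
theorem sub_le_sum_gr (u : V → ℝ) (C : Finset V) {x y : V}
    (h : Relation.ReflTransGen (fun a b => a ∈ C ∧ b ∈ G.N a) x y) :
    u y - u x ≤ ∑ a ∈ C, G.gr u a := by
  have hs : 0 ≤ ∑ a ∈ C, G.gr u a := sum_nonneg fun a _ => G.gr_nonneg u a
  have hsub : Set.Ico (u x) (u y) ⊆ ⋃ a ∈ C, Set.Ico (u a) (u a + G.gr u a) := by
    intro t ht
    obtain ⟨a, b, hab, h1, h2⟩ := exists_cross h u t ht.1 ht.2
    have h3 := G.abs_sub_le_gr u hab.2
    rw [abs_le] at h3
    exact Set.mem_biUnion hab.1 ⟨h1, by linarith⟩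
  have h1 := (MeasureTheory.measure_mono (μ := MeasureTheory.volume) hsub).trans
    (MeasureTheory.measure_biUnion_finset_le C _)
  simp only [Real.volume_Ico, add_sub_cancel_left] at h1
  rw [← ENNReal.ofReal_sum_of_nonneg fun a _ => G.gr_nonneg u a] at h1
  exact (ENNReal.ofReal_le_ofReal_iff hs).1 h1

theorem abs_sub_le_sum_gr (u : V → ℝ) (C : Finset V) {x y : V}
    (h : Relation.ReflTransGen (fun a b => a ∈ C ∧ b ∈ G.N a) x y) :
    |u x - u y| ≤ ∑ a ∈ C, G.gr u a := by
  have h1 := G.sub_le_sum_gr u C h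
  have h2 := G.sub_le_sum_gr (-u) C h
  have h3 : ∀ a, G.gr (-u) a = G.gr u a := fun a => by
    unfold gr
    congr 1
    exact sum_congr rfl fun y _ => by simp only [Pi.neg_apply]; ring
  simp only [h3, Pi.neg_apply] at h2
  rw [abs_le]; constructor <;> linarith

end Pool.Agent.Lib.MP_0d9445_pr.Net
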