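import Pool.Agent.Lib.MP_0d9445_pr.Net.Solve

open Finset
open scoped Classical

noncomputable section

namespace Pool.Agent.Lib.MP_0d9445_pr.Net

variable {V : Type*} (G : Net V) {F : Finset V} {k : V → ℝ}

theorem green_sol (hF : G.Esc F) (hk : ∀ x ∈ F, 0 ≤ k x) (x : V) :
    G.Sol F k (fun y => if y = x then 1 else 0) 0 (G.green F k x) := G.solve_sol hF hk _ _

theorem green_out (hF : G.Esc F) (hk : ∀ x ∈ F, 0 ≤ k x) (x : V) {y : V} (hy : y ∉ F) :
    G.green F k x y = 0 := (G.green_sol hF hk x).1 y hy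

theorem green_in (hF : G.Esc F) (hk : ∀ x ∈ F, 0 ≤ k x) (x : V) {y : V} (hy : y ∈ F) :
    G.lap (G.green F k x) y + k y * G.green F k x y = if y = x then 1 else 0 :=
  (G.green_sol hF hk x).2 y hy

theorem green_nonneg (hF : G.Esc F) (hk : ∀ x ∈ F, 0 ≤ k x) (x y : V) : 0 ≤ G.green F k x y := by
  by_cases hy : y ∈ F
  · exact G.solve_nonneg hF hk (fun z _ => by split_ifs <;> norm_num) (fun _ _ _ _ _ => le_rfl) hy
  · rw [G.green_out hF hk x hy]

/-- reproducing property -/
theorem en_green (hF : G.Esc F) (hk : ∀ x ∈ F, 0 ≤ k x) {S : Finset V} (hS : F ⊆ G.inner S)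
    (x : V) {v : V → ℝ} (hv : ∀ y, y ∉ F → v y = 0) :
    G.en S (G.green F k x) v + ∑ y ∈ F, k y * G.green F k x y * v y = v x := by
  rw [(G.green_sol hF hk x).weak hS hv]
  by_cases hx : x ∈ F
  · simp [hx]
  · simp [hx, hv x hx]

theorem en_green_zero (hF : G.Esc F) {S : Finset V} (hS : F ⊆ G.inner S)
    (x : V) {v : V → ℝ} (hv : ∀ y, y ∉ F → v y = 0) : G.en S (G.green F 0 x) v = v x := by
  simpa using G.en_green (k := 0) hF (fun _ _ => le_rfl) hS x hv

theorem green_symm (hF : G.Esc F) (hk : ∀ x ∈ F, 0 ≤ k x) (x y : V) :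
    G.green F k x y = G.green F k y x := by
  have h1 := G.en_green hF hk (G.subset_inner_clo F) x fun z hz => G.green_out hF hk y hz
  have h2 := G.en_green hF hk (G.subset_inner_clo F) y fun z hz => G.green_out hF hk x hz
  rw [← h1, ← h2, en_comm]
  congr 1
  exact sum_congr rfl fun z _ => by ring

theorem green_left_out (hF : G.Esc F) (hk : ∀ x ∈ F, 0 ≤ k x) {x : V} (hx : x ∉ F) (y : V) :
    G.green F k x y = 0 := by rw [G.green_symm hF hk, G.green_out hF hk y hx]

/-- representation of a function which vanishes off `F` -/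
theorem eq_sum_green (hF : G.Esc F) (hk : ∀ x ∈ F, 0 ≤ k x) {v : V → ℝ}
    (hv : ∀ y, y ∉ F → v y = 0) (x : V) :
    v x = ∑ y ∈ F, G.green F k x y * (G.lap v y + k y * v y) := by
  rw [← G.en_green hF hk (G.subset_inner_clo F) x hv, en_comm,
    G.en_eq_sum (G.subset_inner_clo F) v fun z hz => G.green_out hF hk x hz, ← sum_add_distrib]
  exact sum_congr rfl fun z _ => by ring

theorem solve_eq_sum (hF : G.Esc F) (hk : ∀ x ∈ F, 0 ≤ k x) (f : V → ℝ) (x : V) :
    G.solve F k f 0 x = ∑ y ∈ F, G.green F k x y * f y := by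
  rw [G.eq_sum_green hF hk (fun y hy => G.solve_out hF hk f 0 hy) x]
  exact sum_congr rfl fun y hy => by rw [G.solve_in hF hk f 0 hy]

/-- Riesz decomposition -/
theorem eq_solve_add (hF : G.Esc F) (hk : ∀ x ∈ F, 0 ≤ k x) (u : V → ℝ) (x : V) :
    u x = G.solve F k 0 u x + ∑ y ∈ F, G.green F k x y * (G.lap u y + k y * u y) := by
  have h := G.eq_sum_green hF hk (v := u - G.solve F k 0 u)
    (fun y hy => by rw [Pi.sub_apply, G.solve_out hF hk 0 u hy, sub_self]) x
  rw [Pi.sub_apply, sub_eq_iff_eq_add'] at h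
  rw [h]
  congr 1
  refine sum_congr rfl fun y hy => ?_
  have h2 := G.solve_in hF hk 0 u hy
  rw [Pi.zero_apply] at h2
  rw [lap_sub, Pi.sub_apply]
  congr 1
  linarith

theorem solve_eq_add (hF : G.Esc F) (hk : ∀ x ∈ F, 0 ≤ k x) (f b : V → ℝ) (x : V) :
    G.solve F k f b x = G.solve F k 0 b x + ∑ y ∈ F, G.green F k x y * f y := by
  have h := G.solve_add hF hk 0 b f 0
  rw [zero_add, add_zero] at h
  rw [h, Pi.add_apply, G.solve_eq_sum hF hk]

theorem green_le_diag (hF : G.Esc F) (hk : ∀ x ∈ F, 0 ≤ k x) (x y : V) :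
    G.green F k x y ≤ G.green F k x x := by
  have h0 := G.green_nonneg hF hk x x
  by_cases hy : y ∈ F.erase x
  · refine G.comparison (hF.mono (erase_subset x F)) (k := k) (v := fun _ => G.green F k x x)
      (fun z hz => hk z (mem_of_mem_erase hz)) (fun z hz => ?_) (fun z _ w _ hw => ?_) y hy
    · rw [G.green_in hF hk x (mem_of_mem_erase hz), if_neg (ne_of_mem_erase hz), lap_const,
        zero_add]
      exact mul_nonneg (hk z (mem_of_mem_erase hz)) h0
    · by_cases hwx : w = x
      · rw [hwx]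
      · rw [G.green_out hF hk x fun h => hw (mem_erase.2 ⟨hwx, h⟩)]
        exact h0
  · by_cases hyx : y = x
    · rw [hyx]
    · rw [G.green_out hF hk x fun h => hy (mem_erase.2 ⟨hyx, h⟩)]
      exact h0

theorem green_diag_le (hF : G.Esc F) (hk : ∀ x ∈ F, 0 ≤ k x) {x y : V} (hy : y ∈ G.N x) :
    G.green F k x x ≤ 1 + G.green F k x y := by
  by_cases hx : x ∈ F
  · have h1 := G.green_in hF hk x hx
    rw [if_pos rfl] at h1
    have h2 : G.green F k x x - G.green F k x y ≤ G.lap (G.green F k x) x :=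
      single_le_sum (f := fun y => G.green F k x x - G.green F k x y)
        (fun z _ => sub_nonneg.2 (G.green_le_diag hF hk x z)) hy
    have h3 := mul_nonneg (hk x hx) (G.green_nonneg hF hk x x)
    linarith
  · rw [G.green_out hF hk x hx]
    linarith [G.green_nonneg hF hk x y]

/-- the Green function grows with the domain and decreases with the killing -/
theorem green_mono {F' : Finset V} {k' : V → ℝ} (hF' : G.Esc F') (hFF : F ⊆ F')
    (hk' : ∀ x ∈ F', 0 ≤ k' x) (hkk : ∀ x ∈ F, k' x ≤ k x) (x y : V) :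
    G.green F k x y ≤ G.green F' k' x y := by
  have hF := hF'.mono hFF
  have hk : ∀ x ∈ F, 0 ≤ k x := fun x hx => (hk' x (hFF hx)).trans (hkk x hx)
  by_cases hy : y ∈ F
  · refine G.comparison hF hk (fun z hz => ?_) (fun z _ w _ hw => ?_) y hy
    · have h1 := G.green_in hF' hk' x (hFF hz)
      have h2 := mul_le_mul_of_nonneg_right (hkk z hz) (G.green_nonneg hF' hk' x z)
      rw [G.green_in hF hk x hz]; linarith
    · rw [G.green_out hF hk x hw]
      exact G.green_nonneg hF' hk' x w
  · rw [G.green_out hF hk x hy]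
    exact G.green_nonneg hF' hk' x y

/-- energy of a monotone contraction of the Green function -/
theorem en_green_comp (hF : G.Esc F) (hk : ∀ x ∈ F, 0 ≤ k x) (S : Finset V) (x : V) (φ : ℝ → ℝ)
    (hm : Monotone φ) (hφ : ∀ s t, s ≤ t → φ t - φ s ≤ t - s) (h0 : φ 0 = 0) :
    G.en S (fun y => φ (G.green F k x y)) (fun y => φ (G.green F k x y)) ≤
      φ (G.green F k x x) := by
  have hS : F ⊆ G.inner (S ∪ G.clo F) :=
    (G.subset_inner_clo F).trans (G.inner_mono subset_union_right)
  refine (G.en_mono (subset_union_left (s₂ := G.clo F)) _).trans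
    ((G.en_comp_le_pair _ _ φ hm hφ).trans ?_)
  have h1 := G.en_green hF hk hS x (v := fun y => φ (G.green F k x y))
    fun y hy => by rw [G.green_out hF hk x hy, h0]
  have h2 : 0 ≤ ∑ y ∈ F, k y * G.green F k x y * φ (G.green F k x y) :=
    sum_nonneg fun y hy => mul_nonneg (mul_nonneg (hk y hy) (G.green_nonneg hF hk x y))
      (h0 ▸ hm (G.green_nonneg hF hk x y))
  linarith

theorem en_green_min (hF : G.Esc F) (hk : ∀ x ∈ F, 0 ≤ k x) (S : Finset V) (x : V) {M : ℝ}
    (hM : 0 ≤ M) :
    G.en S (fun y => min (G.green F k x y) M) (fun y => min (G.green F k x y) M) ≤ M :=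
  (G.en_green_comp hF hk S x (fun t => min t M) (fun _ _ h => min_le_min_right M h)
    (fun s t h => by
      rcases le_total s M with h1 | h1
      · rw [min_eq_left h1]; linarith [min_le_left t M]
      · rw [min_eq_right h1]; linarith [min_le_right t M]) (min_eq_left hM)).trans
    (min_le_right _ _)

/-- energy of a solution with zero boundary values -/
theorem en_solve_le (hF : G.Esc F) (hk : ∀ x ∈ F, 0 ≤ k x) (S : Finset V) (f : V → ℝ) :
    G.en S (G.solve F k f 0) (G.solve F k f 0) ≤ ∑ y ∈ F, f y * G.solve F k f 0 y := by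
  have hS : F ⊆ G.inner (S ∪ G.clo F) :=
    (G.subset_inner_clo F).trans (G.inner_mono subset_union_right)
  refine (G.en_mono (subset_union_left (s₂ := G.clo F)) _).trans ?_
  have h1 := (G.solve_sol hF hk f 0).weak hS fun y hy => G.solve_out hF hk f 0 hy
  have h2 : 0 ≤ ∑ y ∈ F, k y * G.solve F k f 0 y * G.solve F k f 0 y :=
    sum_nonneg fun y hy => by
      rw [mul_assoc]; exact mul_nonneg (hk y hy) (mul_self_nonneg _)
  linarith

/-- a function which vanishes off `F` is bounded by its energy -/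
theorem sq_le_green_mul (hF : G.Esc F) {S : Finset V} (hS : F ⊆ G.inner S) (x : V) {v : V → ℝ}
    (hv : ∀ y, y ∉ F → v y = 0) : v x ^ 2 ≤ G.green F 0 x x * G.en S v v := by
  have h1 := G.en_green_zero hF hS x hv
  have h2 := G.en_green_zero hF hS x (v := G.green F 0 x)
    fun y hy => G.green_out (k := 0) hF (fun _ _ => le_rfl) x hy
  have h3 := G.en_sq_le S (G.green F 0 x) v
  rwa [h1, h2] at h3

end Pool.Agent.Lib.MP_0d9445_pr.Net
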