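import Pool.Agent.Lib.MP_0d9445_pr.Net.Energy

open Finset
open scoped Classical

noncomputable section

namespace Pool.Agent.Lib.MP_0d9445_pr.Net

variable {V : Type*} (G : Net V)

theorem Reach.symm {G : Net V} {x y : V} (h : G.Reach x y) : G.Reach y x := by
  induction h with
  | refl => exact Relation.ReflTransGen.refl
  | tail _ hbc ih => exact Relation.ReflTransGen.head (G.symm _ _ hbc) ih

theorem Esc.mono {G : Net V} {F F' : Finset V} (h : G.Esc F) (hF : F' ⊆ F) : G.Esc F' :=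
  fun x hx => let ⟨y, hy, hr⟩ := h x (hF hx); ⟨y, fun hy' => hy (hF hy'), hr⟩

theorem Esc.nonempty {G : Net V} {F : Finset V} (h : G.Esc F) {x : V} (hx : x ∈ F) :
    (G.N x).Nonempty := by
  obtain ⟨y, hy, hr⟩ := h x hx
  rcases hr.cases_head with rfl | ⟨z, hz, -⟩
  · exact absurd hx hy
  · exact ⟨z, hz⟩

theorem Esc.deg_pos {G : Net V} {F : Finset V} (h : G.Esc F) {x : V} (hx : x ∈ F) :
    0 < G.deg x := Nat.cast_pos.2 (card_pos.2 (h.nonempty hx))

theorem esc_subset (F : Finset V) : G.esc F ⊆ F := filter_subset _ _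

theorem esc_esc (F : Finset V) : G.Esc (G.esc F) := fun _ hx =>
  let ⟨y, hy, hr⟩ := (mem_filter.1 hx).2; ⟨y, fun hy' => hy (G.esc_subset F hy'), hr⟩

theorem Esc.esc_eq {G : Net V} {F : Finset V} (h : G.Esc F) : G.esc F = F :=
  filter_true_of_mem h

/-- maximum principle -/
theorem max_principle {F : Finset V} (hF : G.Esc F) {k u : V → ℝ} (hk : ∀ x ∈ F, 0 ≤ k x)
    (hu : ∀ x ∈ F, 0 ≤ G.lap u x + k x * u x) (hb : ∀ x ∈ F, ∀ y ∈ G.N x, y ∉ F → 0 ≤ u y) :
    ∀ x ∈ F, 0 ≤ u x := by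
  intro x hx
  obtain ⟨z, hz, hmin⟩ := exists_min_image F u ⟨x, hx⟩
  refine le_trans ?_ (hmin x hx)
  by_contra hneg
  rw [not_le] at hneg
  have key : ∀ a, a ∈ F ∧ u a = u z → ∀ b ∈ G.N a, b ∈ F ∧ u b = u z := by
    rintro a ⟨ha, hua⟩ b hb'
    have hle : ∀ y ∈ G.N a, u a - u y ≤ 0 := by
      intro y hy
      by_cases hyF : y ∈ F
      · linarith [hmin y hyF]
      · linarith [hb a ha y hy hyF]
    have h1 : k a * u a ≤ 0 := mul_nonpos_of_nonneg_of_nonpos (hk a ha) (by linarith)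
    have h2 : ∑ y ∈ G.N a, (u a - u y) = 0 :=
      le_antisymm (sum_nonpos hle) (by have := hu a ha; unfold lap at this; linarith)
    have h3 := (sum_eq_zero_iff_of_nonpos hle).1 h2 b hb'
    have h4 : u b = u z := by linarith
    refine ⟨?_, h4⟩
    by_contra hbF
    linarith [hb a ha b hb' hbF]
  obtain ⟨y, hy, hr⟩ := hF z hz
  have : y ∈ F ∧ u y = u z := by
    clear hy
    induction hr with
    | refl => exact ⟨hz, rfl⟩
    | tail _ hbc ih => exact key _ ih _ hbc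
  exact hy this.1

/-- comparison principle -/
theorem comparison {F : Finset V} (hF : G.Esc F) {k u v : V → ℝ} (hk : ∀ x ∈ F, 0 ≤ k x)
    (h : ∀ x ∈ F, G.lap u x + k x * u x ≤ G.lap v x + k x * v x)
    (hb : ∀ x ∈ F, ∀ y ∈ G.N x, y ∉ F → u y ≤ v y) : ∀ x ∈ F, u x ≤ v x := by
  intro x hx
  have := G.max_principle hF (u := v - u) hk (fun x hx => by
    rw [lap_sub, Pi.sub_apply]; linarith [h x hx]) (fun x hx y hy hyF => by
    rw [Pi.sub_apply]; linarith [hb x hx y hy hyF]) x hx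
  rw [Pi.sub_apply] at this
  linarith

theorem Sol.unique {G : Net V} {F : Finset V} (hF : G.Esc F) {k f b u v : V → ℝ}
    (hk : ∀ x ∈ F, 0 ≤ k x) (hu : G.Sol F k f b u) (hv : G.Sol F k f b v) : u = v := by
  funext x
  by_cases hx : x ∈ F
  · refine le_antisymm (G.comparison hF hk (fun x hx => ?_) (fun _ _ y _ hy => ?_) x hx)
      (G.comparison hF hk (fun x hx => ?_) (fun _ _ y _ hy => ?_) x hx)
    · rw [hu.2 x hx, hv.2 x hx]
    · rw [hu.1 y hy, hv.1 y hy]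
    · rw [hu.2 x hx, hv.2 x hx]
    · rw [hu.1 y hy, hv.1 y hy]
  · rw [hu.1 x hx, hv.1 x hx]

/-- extension by zero -/
def ext0 (F : Finset V) : (F → ℝ) →ₗ[ℝ] V → ℝ where
  toFun w x := if h : x ∈ F then w ⟨x, h⟩ else 0
  map_add' w w' := by
    funext x
    by_cases h : x ∈ F <;> simp [h]
  map_smul' c w := by
    funext x
    by_cases h : x ∈ F <;> simp [h]

/-- the operator of the boundary value problem -/
def opr (F : Finset V) (k : V → ℝ) : (F → ℝ) →ₗ[ℝ] F → ℝ where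
  toFun w x := G.lap (ext0 F w) x + k x * w x
  map_add' w w' := by
    funext x
    rw [map_add, lap_add, Pi.add_apply, Pi.add_apply]; ring
  map_smul' c w := by
    funext x
    rw [map_smul, lap_smul, Pi.smul_apply, Pi.smul_apply, RingHom.id_apply, smul_eq_mul,
      smul_eq_mul]; ring

theorem exists_sol {F : Finset V} (hF : G.Esc F) {k : V → ℝ} (hk : ∀ x ∈ F, 0 ≤ k x)
    (f b : V → ℝ) : ∃ u, G.Sol F k f b u := by
  have e1 : ∀ (w : F → ℝ) (x : V) (h : x ∈ F), ext0 F w x = w ⟨x, h⟩ := fun w x h => dif_pos h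
  have e0 : ∀ (w : F → ℝ) (x : V), x ∉ F → ext0 F w x = 0 := fun w x h => dif_neg h
  have hinj : Function.Injective (G.opr F k) := by
    refine (injective_iff_map_eq_zero _).2 fun w hw => ?_
    have h1 : G.Sol F k 0 0 (ext0 F w) := ⟨fun x hx => e0 w x hx, fun x hx => by
      rw [e1 w x hx]; exact congrFun hw ⟨x, hx⟩⟩
    have h2 : G.Sol F k 0 0 0 := ⟨fun _ _ => rfl, fun x _ => by simp [lap_zero]⟩
    funext x
    rw [← e1 w x x.2, Sol.unique hF hk h1 h2]
    rfl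
  obtain ⟨w, hw⟩ := LinearMap.injective_iff_surjective.1 hinj
    fun x => f x - (G.lap b x + k x * b x)
  refine ⟨b + ext0 F w, fun x hx => by rw [Pi.add_apply, e0 w x hx, add_zero], fun x hx => ?_⟩
  have h : G.lap (ext0 F w) x + k x * w ⟨x, hx⟩ = f x - (G.lap b x + k x * b x) :=
    congrFun hw ⟨x, hx⟩
  rw [lap_add, Pi.add_apply, e1 w x hx]; linarith

theorem solve_sol {F : Finset V} (hF : G.Esc F) {k : V → ℝ} (hk : ∀ x ∈ F, 0 ≤ k x)
    (f b : V → ℝ) : G.Sol F k f b (G.solve F k f b) :=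
  Classical.epsilon_spec (G.exists_sol hF hk f b)

theorem Sol.eq_solve {G : Net V} {F : Finset V} (hF : G.Esc F) {k f b u : V → ℝ}
    (hk : ∀ x ∈ F, 0 ≤ k x) (hu : G.Sol F k f b u) : u = G.solve F k f b :=
  hu.unique hF hk (G.solve_sol hF hk f b)

theorem solve_out {F : Finset V} (hF : G.Esc F) {k : V → ℝ} (hk : ∀ x ∈ F, 0 ≤ k x)
    (f b : V → ℝ) {x : V} (hx : x ∉ F) : G.solve F k f b x = b x :=
  (G.solve_sol hF hk f b).1 x hx

theorem solve_in {F : Finset V} (hF : G.Esc F) {k : V → ℝ} (hk : ∀ x ∈ F, 0 ≤ k x)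
    (f b : V → ℝ) {x : V} (hx : x ∈ F) :
    G.lap (G.solve F k f b) x + k x * G.solve F k f b x = f x :=
  (G.solve_sol hF hk f b).2 x hx

theorem Sol.add {G : Net V} {F : Finset V} {k f b u f' b' u' : V → ℝ} (h : G.Sol F k f b u)
    (h' : G.Sol F k f' b' u') : G.Sol F k (f + f') (b + b') (u + u') :=
  ⟨fun x hx => by simp only [Pi.add_apply, h.1 x hx, h'.1 x hx], fun x hx => by
    rw [lap_add, Pi.add_apply, Pi.add_apply, ← h.2 x hx, ← h'.2 x hx]; ring⟩

theorem Sol.smul {G : Net V} {F : Finset V} {k f b u : V → ℝ} (h : G.Sol F k f b u) (c : ℝ) :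
    G.Sol F k (c • f) (c • b) (c • u) :=
  ⟨fun x hx => by simp only [Pi.smul_apply, h.1 x hx], fun x hx => by
    rw [lap_smul, Pi.smul_apply, Pi.smul_apply, ← h.2 x hx, smul_eq_mul, smul_eq_mul]; ring⟩

theorem solve_add {F : Finset V} (hF : G.Esc F) {k : V → ℝ} (hk : ∀ x ∈ F, 0 ≤ k x)
    (f b f' b' : V → ℝ) :
    G.solve F k (f + f') (b + b') = G.solve F k f b + G.solve F k f' b' :=
  (((G.solve_sol hF hk f b).add (G.solve_sol hF hk f' b')).eq_solve hF hk).symm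

theorem solve_smul {F : Finset V} (hF : G.Esc F) {k : V → ℝ} (hk : ∀ x ∈ F, 0 ≤ k x) (c : ℝ)
    (f b : V → ℝ) : G.solve F k (c • f) (c • b) = c • G.solve F k f b :=
  (((G.solve_sol hF hk f b).smul c).eq_solve hF hk).symm

/-- the solution on `F` only depends on the data on `F` and on its outer boundary -/
theorem solve_congr {F : Finset V} (hF : G.Esc F) {k k' f f' b b' : V → ℝ}
    (hk : ∀ x ∈ F, 0 ≤ k x) (hkk : ∀ x ∈ F, k x = k' x) (hf : ∀ x ∈ F, f x = f' x)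
    (hb : ∀ x ∈ F, ∀ y ∈ G.N x, y ∉ F → b y = b' y) {x : V} (hx : x ∈ F) :
    G.solve F k f b x = G.solve F k' f' b' x := by
  have hk' : ∀ x ∈ F, 0 ≤ k' x := fun x hx => hkk x hx ▸ hk x hx
  have h1 : ∀ x ∈ F, G.lap (G.solve F k f b) x + k x * G.solve F k f b x =
      G.lap (G.solve F k' f' b') x + k x * G.solve F k' f' b' x := fun x hx => by
    rw [G.solve_in hF hk f b hx, hkk x hx, G.solve_in hF hk' f' b' hx, hf x hx]
  have h2 : ∀ x ∈ F, ∀ y ∈ G.N x, y ∉ F → G.solve F k f b y = G.solve F k' f' b' y :=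
    fun x hx y hy hyF => by
      rw [G.solve_out hF hk f b hyF, G.solve_out hF hk' f' b' hyF, hb x hx y hy hyF]
  exact le_antisymm
    (G.comparison hF hk (fun x hx => (h1 x hx).le) (fun x hx y hy h => (h2 x hx y hy h).le) x hx)
    (G.comparison hF hk (fun x hx => (h1 x hx).ge) (fun x hx y hy h => (h2 x hx y hy h).ge) x hx)

theorem solve_mono {F : Finset V} (hF : G.Esc F) {k f f' b b' : V → ℝ} (hk : ∀ x ∈ F, 0 ≤ k x)
    (hf : ∀ x ∈ F, f x ≤ f' x) (hb : ∀ x ∈ F, ∀ y ∈ G.N x, y ∉ F → b y ≤ b' y) {x : V}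
    (hx : x ∈ F) : G.solve F k f b x ≤ G.solve F k f' b' x :=
  G.comparison hF hk (fun x hx => by
    rw [G.solve_in hF hk f b hx, G.solve_in hF hk f' b' hx]; exact hf x hx)
    (fun x hx y hy hyF => by
      rw [G.solve_out hF hk f b hyF, G.solve_out hF hk f' b' hyF]; exact hb x hx y hy hyF) x hx

theorem solve_nonneg {F : Finset V} (hF : G.Esc F) {k f b : V → ℝ} (hk : ∀ x ∈ F, 0 ≤ k x)
    (hf : ∀ x ∈ F, 0 ≤ f x) (hb : ∀ x ∈ F, ∀ y ∈ G.N x, y ∉ F → 0 ≤ b y) {x : V}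
    (hx : x ∈ F) : 0 ≤ G.solve F k f b x :=
  G.max_principle hF hk (fun x hx => by rw [G.solve_in hF hk f b hx]; exact hf x hx)
    (fun x hx y hy hyF => by rw [G.solve_out hF hk f b hyF]; exact hb x hx y hy hyF) x hx

/-- a harmonic function lies below every upper bound of its boundary values -/
theorem harm_le {F : Finset V} (hF : G.Esc F) {u : V → ℝ} (hu : ∀ x ∈ F, G.lap u x ≤ 0) {M : ℝ}
    (hb : ∀ x ∈ F, ∀ y ∈ G.N x, y ∉ F → u y ≤ M) : ∀ x ∈ F, u x ≤ M :=
  G.comparison hF (k := 0) (v := fun _ => M) (fun _ _ => le_rfl)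
    (fun x hx => by simpa [lap_const] using hu x hx) hb

theorem le_harm {F : Finset V} (hF : G.Esc F) {u : V → ℝ} (hu : ∀ x ∈ F, 0 ≤ G.lap u x) {m : ℝ}
    (hb : ∀ x ∈ F, ∀ y ∈ G.N x, y ∉ F → m ≤ u y) : ∀ x ∈ F, m ≤ u x :=
  G.comparison hF (k := 0) (u := fun _ => m) (fun _ _ => le_rfl)
    (fun x hx => by simpa [lap_const] using hu x hx) hb

/-- with killing and no source the solution is bounded by the boundary values -/
theorem abs_solve_le {F : Finset V} (hF : G.Esc F) {k b : V → ℝ} (hk : ∀ x ∈ F, 0 ≤ k x) {M : ℝ}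
    (hM : 0 ≤ M) (hb : ∀ x ∈ F, ∀ y ∈ G.N x, y ∉ F → |b y| ≤ M) {x : V} (hx : x ∈ F) :
    |G.solve F k 0 b x| ≤ M := by
  rw [abs_le]
  constructor
  · refine G.comparison hF hk (u := fun _ => -M) (fun x hx => ?_) (fun x hx y hy hyF => ?_) x hx
    · rw [G.solve_in hF hk 0 b hx, lap_const, Pi.zero_apply]
      nlinarith [hk x hx]
    · rw [G.solve_out hF hk 0 b hyF]
      exact (abs_le.1 (hb x hx y hy hyF)).1
  · refine G.comparison hF hk (v := fun _ => M) (fun x hx => ?_) (fun x hx y hy hyF => ?_) x hx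
    · rw [G.solve_in hF hk 0 b hx, lap_const, Pi.zero_apply]
      nlinarith [hk x hx]
    · rw [G.solve_out hF hk 0 b hyF]
      exact (abs_le.1 (hb x hx y hy hyF)).2

/-- weak form of the equation -/
theorem Sol.weak {G : Net V} {S F : Finset V} (hS : F ⊆ G.inner S) {k f b u : V → ℝ}
    (hu : G.Sol F k f b u) {v : V → ℝ} (hv : ∀ x, x ∉ F → v x = 0) :
    G.en S u v + ∑ x ∈ F, k x * u x * v x = ∑ x ∈ F, f x * v x := by
  rw [G.en_eq_sum hS u hv, ← sum_add_distrib]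
  exact sum_congr rfl fun x hx => by rw [← hu.2 x hx]; ring

end Pool.Agent.Lib.MP_0d9445_pr.Net
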